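import Pool.Agent.H487.GP.Stm
import Pool.Agent.H331.GA.KB

/-!
The Fourier transform and the bounds of the average of translates (`S_GKB`), from `S_KBH`.
-/

set_option autoImplicit false

open Complex Filter Topology Set MeasureTheory

namespace Pool.Agent.H874.GP

open Pool.Agent.H487.GA (FF C2c)
open Pool.Agent.H487.GP (Fh Gv S_KBH S_GKB)
open Pool.Agent.H331.GA (hcs le_l1 FF_der FF_cont FF_deriv FF_hasDeriv nrm_exp cont_e int_e)

/-! ### averages of translates -/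

/-- the integral of the translates -/
noncomputable def av (g : ℝ → ℝ) (a x : ℝ) : ℝ := ∫ w in (0 : ℝ)..a, g (x - w)

theorem av_cont {g : ℝ → ℝ} (hc : Continuous g) (a : ℝ) : Continuous (av g a) := by
  unfold av
  refine intervalIntegral.continuous_parametric_intervalIntegral_of_continuous' ?_ 0 a
  exact hc.comp (continuous_fst.sub continuous_snd)

theorem l1_av {g : ℝ → ℝ} (hc : Continuous g) (hs : HasCompactSupport g) (a : ℝ) :
    ∫ x : ℝ, |av g a x| ≤ |a| * ∫ x : ℝ, |g x| := by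
  have hA : Continuous (av g a) := av_cont hc a
  have hgi : Integrable g := hc.integrable_of_hasCompactSupport hs
  have hL : ∫⁻ x : ℝ, ‖g x‖ₑ = ENNReal.ofReal (∫ x : ℝ, |g x|) := by
    rw [← ofReal_integral_norm_eq_lintegral_enorm hgi]
    rfl
  have h0 : 0 ≤ ∫ x : ℝ, |g x| := integral_nonneg fun x => abs_nonneg _
  have h1 : ∫⁻ x : ℝ, ‖av g a x‖ₑ ≤ ENNReal.ofReal (|a| * ∫ x : ℝ, |g x|) := by
    calc ∫⁻ x : ℝ, ‖av g a x‖ₑ
        ≤ ∫⁻ x : ℝ, ∫⁻ w in Set.uIoc 0 a, ‖g (x - w)‖ₑ := by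
          refine lintegral_mono fun x => ?_
          unfold av
          rw [← ofReal_norm, intervalIntegral.norm_integral_eq_norm_integral_uIoc,
            ofReal_norm]
          exact enorm_integral_le_lintegral_enorm _
      _ = ∫⁻ w in Set.uIoc 0 a, ∫⁻ x : ℝ, ‖g (x - w)‖ₑ := by
          refine lintegral_lintegral_swap ?_
          exact (hc.comp (continuous_fst.sub continuous_snd)).enorm.measurable.aemeasurable
      _ = ∫⁻ w in Set.uIoc 0 a, ENNReal.ofReal (∫ x : ℝ, |g x|) := by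
          refine lintegral_congr fun w => ?_
          rw [lintegral_sub_right_eq_self (fun x => ‖g x‖ₑ) w, hL]
      _ = ENNReal.ofReal (|a| * ∫ x : ℝ, |g x|) := by
          rw [lintegral_const, Measure.restrict_apply_univ, Real.volume_uIoc, sub_zero,
            ← ENNReal.ofReal_mul h0, mul_comm]
  have h2 : ∫ x : ℝ, |av g a x| = (∫⁻ x : ℝ, ‖av g a x‖ₑ).toReal := by
    rw [← integral_norm_eq_lintegral_enorm hA.aestronglyMeasurable]
    rfl
  rw [h2]
  have h3 := ENNReal.toReal_mono ENNReal.ofReal_ne_top h1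
  rwa [ENNReal.toReal_ofReal (by positivity)] at h3

theorem av_eq {g : ℝ → ℝ} (hc : Continuous g) (a x : ℝ) :
    av g a x = (∫ u in (0 : ℝ)..x, g u) - ∫ u in (0 : ℝ)..(x - a), g u := by
  unfold av
  rw [intervalIntegral.integral_comp_sub_left, sub_zero,
    intervalIntegral.integral_interval_sub_left (hc.intervalIntegrable _ _)
      (hc.intervalIntegrable _ _)]

theorem av_der {g : ℝ → ℝ} (hc : Continuous g) (a x : ℝ) :
    HasDerivAt (av g a) (g x - g (x - a)) x := by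
  have h0 : ∀ x : ℝ, HasDerivAt (fun x : ℝ => ∫ u in (0 : ℝ)..x, g u) (g x) x := fun x =>
    intervalIntegral.integral_hasDerivAt_right (hc.intervalIntegrable _ _)
      (hc.stronglyMeasurableAtFilter _ _) hc.continuousAt
  have h1 : HasDerivAt (fun x : ℝ => ∫ u in (0 : ℝ)..(x - a), g u) (g (x - a)) x :=
    (h0 (x - a)).comp_sub_const x a
  have h3 : av g a = fun x => (∫ u in (0 : ℝ)..x, g u) - ∫ u in (0 : ℝ)..(x - a), g u :=
    funext fun x => av_eq hc a x
  rw [h3]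
  exact (h0 x).sub h1

theorem av_of_der {g g' : ℝ → ℝ} (hd : ∀ x, HasDerivAt g (g' x) x) (hc : Continuous g') (a x : ℝ) :
    av g' a x = g x - g (x - a) := by
  rw [av_eq hc, intervalIntegral.integral_eq_sub_of_hasDerivAt (fun u _ => hd u)
    (hc.intervalIntegrable _ _), intervalIntegral.integral_eq_sub_of_hasDerivAt (fun u _ => hd u)
    (hc.intervalIntegrable _ _)]
  ring

theorem FF_shift (g : ℝ → ℝ) (a ξ : ℝ) :
    FF (fun x => g (x - a)) ξ = cexp (-(((a * ξ : ℝ) : ℂ) * I)) * FF g ξ := by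
  unfold FF
  rw [← integral_const_mul, ← integral_sub_right_eq_self (fun s : ℝ =>
    cexp (-(((a * ξ : ℝ) : ℂ) * I)) * ((g s : ℂ) * cexp (-(((ξ * s : ℝ) : ℂ) * I)))) a]
  congr 1
  funext s
  rw [mul_left_comm, ← Complex.exp_add]
  congr 2
  push_cast
  ring

/-! ### the multiplier -/

/-- the multiplier -/
noncomputable def N (a ξ : ℝ) : ℂ := (1 - cexp (-(((a * ξ : ℝ) : ℂ) * I))) / (I * ξ)

/-- its derivative -/
noncomputable def N1 (a ξ : ℝ) : ℂ :=
  (-(cexp (-(((a * ξ : ℝ) : ℂ) * I)) * (-((a : ℂ) * I))) * (I * ξ) -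
    (1 - cexp (-(((a * ξ : ℝ) : ℂ) * I))) * I) / (I * ξ) ^ 2

theorem N_le (a : ℝ) {ξ : ℝ} (hξ : 0 < ξ) : ‖N a ξ‖ ≤ |a| := by
  unfold N
  rw [norm_div, norm_mul, Complex.norm_I, one_mul, Complex.norm_real, Real.norm_eq_abs,
    abs_of_pos hξ, div_le_iff₀ hξ, norm_sub_rev]
  have h1 := Real.norm_exp_I_mul_ofReal_sub_one_le (x := -(a * ξ))
  rw [show -(((a * ξ : ℝ) : ℂ) * I) = I * ((-(a * ξ) : ℝ) : ℂ) by push_cast; ring]
  refine h1.trans (le_of_eq ?_)
  rw [Real.norm_eq_abs, abs_neg, abs_mul, abs_of_pos hξ]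

theorem N_der (a : ℝ) {ξ : ℝ} (hξ : 0 < ξ) : HasDerivAt (N a) (N1 a ξ) ξ := by
  have h1 : HasDerivAt (fun ξ : ℝ => -(((a * ξ : ℝ) : ℂ) * I)) (-((a : ℂ) * I)) ξ := by
    have h3 : HasDerivAt (fun ξ : ℝ => ((a * ξ : ℝ) : ℂ)) (a : ℂ) ξ := by
      have := ((hasDerivAt_id ξ).const_mul a).ofReal_comp
      simpa using this
    exact (h3.mul_const I).neg
  have h2 : HasDerivAt (fun ξ : ℝ => I * (ξ : ℂ)) I ξ := by
    have := ((hasDerivAt_id ξ).ofReal_comp).const_mul I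
    simpa using this
  have h3 : I * (ξ : ℂ) ≠ 0 := mul_ne_zero I_ne_zero (by exact_mod_cast hξ.ne')
  have h4 := (h1.cexp.const_sub 1).div h2 h3
  exact h4

theorem exp_two (z : ℂ) (hz : z.re = 0) : ‖cexp z - 1 - z‖ ≤ 3 * ‖z‖ ^ 2 := by
  have h0 : ‖cexp z‖ = 1 := by rw [Complex.norm_exp, hz, Real.exp_zero]
  rcases le_or_gt ‖z‖ 1 with h | h
  · refine (Complex.norm_exp_sub_one_sub_id_le h).trans ?_
    nlinarith [sq_nonneg ‖z‖]
  · have h1 : ‖cexp z - 1 - z‖ ≤ ‖cexp z‖ + ‖(1 : ℂ)‖ + ‖z‖ :=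
      (norm_sub_le _ _).trans (add_le_add (norm_sub_le _ _) le_rfl)
    rw [h0, norm_one] at h1
    nlinarith

theorem N1_le (a : ℝ) {ξ : ℝ} (hξ : 0 < ξ) : ‖N1 a ξ‖ ≤ 3 * a ^ 2 := by
  have h1 := exp_two (((a * ξ : ℝ) : ℂ) * I) (by simp)
  have h2 : -(cexp (-(((a * ξ : ℝ) : ℂ) * I)) * (-((a : ℂ) * I))) * (I * ξ) -
      (1 - cexp (-(((a * ξ : ℝ) : ℂ) * I))) * I =
      -(I * cexp (-(((a * ξ : ℝ) : ℂ) * I)) *
        (cexp (((a * ξ : ℝ) : ℂ) * I) - 1 - ((a * ξ : ℝ) : ℂ) * I)) := by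
    have h3 : cexp (-(((a * ξ : ℝ) : ℂ) * I)) * cexp (((a * ξ : ℝ) : ℂ) * I) = 1 := by
      rw [← Complex.exp_add, neg_add_cancel, Complex.exp_zero]
    push_cast at h3 ⊢
    linear_combination I * h3
  unfold N1
  rw [h2, norm_div, norm_neg, norm_mul, norm_mul, Complex.norm_I, nrm_exp, norm_pow, norm_mul,
    Complex.norm_I, one_mul, one_mul, one_mul, Complex.norm_real, Real.norm_eq_abs,
    div_le_iff₀ (by positivity)]
  refine h1.trans (le_of_eq ?_)
  rw [norm_mul, Complex.norm_I, mul_one, Complex.norm_real, Real.norm_eq_abs, sq_abs, sq_abs]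
  ring

theorem N_cont (a : ℝ) : ContinuousOn (N a) (Ioi 0) := fun _ hξ =>
  (N_der a hξ).continuousAt.continuousWithinAt

theorem N1_cont (a : ℝ) : ContinuousOn (N1 a) (Ioi 0) := by
  unfold N1
  refine ContinuousOn.div (by fun_prop) (by fun_prop) fun _ hξ => ?_
  exact pow_ne_zero _ (mul_ne_zero I_ne_zero (by exact_mod_cast (mem_Ioi.1 hξ).ne'))

/-! ### the statement -/

theorem gkb_proof : S_KBH → S_GKB := by
  rintro ⟨C0, hC0, hK⟩ v
  refine ⟨C0 * (|v| + 3 * v ^ 2 + 1), by positivity, fun y hy hy1 hvy => ?_⟩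
  obtain ⟨hC2, hsupp, hl1, hl2, hc1, hc2, hξ⟩ := hK y hy (by linarith)
  have hva : |v * y| = |v| * y := by rw [abs_mul, abs_of_pos hy]
  have hv0 : 0 ≤ |v| := abs_nonneg v
  -- the function
  have hFc : Continuous (Fh y) := hC2.cd.continuous
  have hF1 : ∀ x, HasDerivAt (Fh y) (deriv (Fh y) x) x := fun x =>
    (hC2.cd.differentiable (by norm_num) x).hasDerivAt
  have hd1 : ContDiff ℝ 1 (deriv (Fh y)) := by
    have h := hC2.cd
    rw [show (2 : WithTop ℕ∞) = 1 + 1 by norm_num] at h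
    exact (contDiff_succ_iff_deriv.1 h).2.2
  have hF2 : ∀ x, HasDerivAt (deriv (Fh y)) (deriv (deriv (Fh y)) x) x := fun x =>
    (hd1.differentiable (by norm_num) x).hasDerivAt
  have hFc1 : Continuous (deriv (Fh y)) := hd1.continuous
  have hFc2 : Continuous (deriv (deriv (Fh y))) := hd1.continuous_deriv le_rfl
  have hFs : HasCompactSupport (Fh y) := hcs hC2.supp
  have hFs1 : HasCompactSupport (deriv (Fh y)) := hFs.deriv
  have hFs2 : HasCompactSupport (deriv (deriv (Fh y))) := hFs1.deriv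
  have hG : Gv v y = fun x => 1 / y * av (Fh y) (v * y) x := rfl
  have hGd : ∀ x, HasDerivAt (Gv v y) (1 / y * (Fh y x - Fh y (x - v * y))) x := fun x => by
    rw [hG]
    exact (av_der hFc (v * y) x).const_mul (1 / y)
  have hGd1 : deriv (Gv v y) = fun x => 1 / y * (Fh y x - Fh y (x - v * y)) :=
    funext fun x => (hGd x).deriv
  have hGd2 : deriv (deriv (Gv v y)) = fun x => 1 / y * av (deriv (deriv (Fh y))) (v * y) x := by
    rw [hGd1]
    funext x
    have h1 : HasDerivAt (fun x => Fh y (x - v * y)) (deriv (Fh y) (x - v * y)) x :=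
      (hF1 (x - v * y)).comp_sub_const x (v * y)
    have h2 : HasDerivAt (fun x => 1 / y * (Fh y x - Fh y (x - v * y)))
        (1 / y * (deriv (Fh y) x - deriv (Fh y) (x - v * y))) x :=
      ((hF1 x).sub h1).const_mul (1 / y)
    rw [h2.deriv, av_of_der hF2 hFc2]
  have hGc : Continuous (Gv v y) := by
    rw [hG]
    exact (av_cont hFc _).const_mul _
  have hshift : ContDiff ℝ 2 (fun x => Fh y (x - v * y)) :=
    hC2.cd.comp (contDiff_id.sub contDiff_const)
  have hGC2 : C2c (Gv v y) := by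
    constructor
    · rw [show (2 : WithTop ℕ∞) = 1 + 1 by norm_num, contDiff_succ_iff_deriv]
      refine ⟨fun x => (hGd x).differentiableAt, by simp, ?_⟩
      rw [hGd1]
      exact ((hC2.cd.sub hshift).of_le (by norm_num)).const_smul (1 / y)
    · intro x hx
      have h1 : av (Fh y) (v * y) x = 0 := by
        unfold av
        rw [intervalIntegral.integral_congr (g := fun _ => 0), intervalIntegral.integral_zero]
        intro w hw
        refine hsupp _ ?_
        have h2 : |w| ≤ |v * y| := by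
          have h3 := abs_sub_left_of_mem_uIcc hw
          simpa using h3
        have h3 : |x| - |w| ≤ |x - w| := abs_sub_abs_le_abs_sub x w
        rw [hva] at h2
        linarith
      rw [hG]
      simp only [h1, mul_zero]
  have hGs : HasCompactSupport (Gv v y) := hcs hGC2.supp
  have hGi : Integrable (Gv v y) := hGc.integrable_of_hasCompactSupport hGs
  have hFi : Integrable (Fh y) := hFc.integrable_of_hasCompactSupport hFs
  -- the transform
  have hFF : ∀ ξ : ℝ, 0 < ξ → FF (Gv v y) ξ = FF (Fh y) ξ * (N (v * y) ξ / y) := by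
    intro ξ h0
    have h1 := FF_der hGd hGi (((hFi.sub (hFi.comp_sub_right (v * y))).const_mul (1 / y))) ξ
    have h2 : FF (fun x => 1 / y * (Fh y x - Fh y (x - v * y))) ξ =
        1 / y * (FF (Fh y) ξ - cexp (-(((v * y * ξ : ℝ) : ℂ) * I)) * FF (Fh y) ξ) := by
      rw [← FF_shift]
      unfold FF
      rw [← integral_sub (int_e hFi ξ) (int_e (hFi.comp_sub_right (v * y)) ξ),
        ← integral_const_mul]
      congr 1
      funext s
      push_cast
      ring
    rw [h2] at h1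
    unfold N
    have h3 : (ξ : ℂ) ≠ 0 := by exact_mod_cast h0.ne'
    have h4 : (y : ℂ) ≠ 0 := by exact_mod_cast hy.ne'
    have h5 : FF (Gv v y) ξ = 1 / (I * ξ) * (I * ξ * FF (Gv v y) ξ) := by
      field_simp
    rw [h5, ← h1]
    field_simp
  have hFFd : ∀ ξ : ℝ, 0 < ξ → HasDerivAt (FF (Gv v y))
      (deriv (FF (Fh y)) ξ * (N (v * y) ξ / y) + FF (Fh y) ξ * (N1 (v * y) ξ / y)) ξ := by
    intro ξ h0
    have h1 := ((FF_hasDeriv hFc hFs ξ).differentiableAt.hasDerivAt).mul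
      ((N_der (v * y) h0).div_const (y : ℂ))
    refine h1.congr_of_eventuallyEq ?_
    filter_upwards [Ioi_mem_nhds h0] with z hz
    rw [hFF z hz]
    rfl
  have hNy : ∀ ξ : ℝ, 0 < ξ → ‖N (v * y) ξ / y‖ ≤ |v| := by
    intro ξ h0
    rw [norm_div, Complex.norm_real, Real.norm_eq_abs, abs_of_pos hy, div_le_iff₀ hy, ← hva]
    exact N_le _ h0
  have hN1y : ∀ ξ : ℝ, 0 < ξ → ‖N1 (v * y) ξ / y‖ ≤ 3 * v ^ 2 * y := by
    intro ξ h0
    rw [norm_div, Complex.norm_real, Real.norm_eq_abs, abs_of_pos hy, div_le_iff₀ hy]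
    refine (N1_le _ h0).trans (le_of_eq ?_)
    ring
  have hyc : (y : ℂ) ≠ 0 := by exact_mod_cast hy.ne'
  refine ⟨hGC2, ?_, ?_, ?_, ?_, fun ξ h0 => ?_⟩
  · -- L1
    have h1 := l1_av hFc hFs (v * y)
    have h2 : ∫ x : ℝ, |Gv v y x| = 1 / y * ∫ x : ℝ, |av (Fh y) (v * y) x| := by
      rw [← integral_const_mul]
      congr 1
      funext x
      rw [hG]
      simp only
      rw [abs_mul, abs_of_pos (by positivity : 0 < 1 / y)]
    rw [h2]
    calc 1 / y * ∫ x : ℝ, |av (Fh y) (v * y) x| ≤ 1 / y * (|v * y| * (C0 * y)) := by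
          gcongr
          exact h1.trans (by gcongr)
      _ = C0 * |v| * y := by
          rw [hva]
          field_simp
      _ ≤ C0 * (|v| + 3 * v ^ 2 + 1) * y := by
          gcongr
          nlinarith [sq_nonneg v]
  · have h1 := l1_av hFc2 hFs2 (v * y)
    have h2 : ∫ x : ℝ, |deriv (deriv (Gv v y)) x| =
        1 / y * ∫ x : ℝ, |av (deriv (deriv (Fh y))) (v * y) x| := by
      rw [← integral_const_mul]
      congr 1
      funext x
      rw [hGd2]
      simp only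
      rw [abs_mul, abs_of_pos (by positivity : 0 < 1 / y)]
    rw [h2]
    calc 1 / y * ∫ x : ℝ, |av (deriv (deriv (Fh y))) (v * y) x| ≤ 1 / y * (|v * y| * (C0 / y)) := by
          gcongr
          exact h1.trans (by gcongr)
      _ = C0 * |v| / y := by
          rw [hva]
          field_simp
      _ ≤ C0 * (|v| + 3 * v ^ 2 + 1) / y := by
          gcongr
          nlinarith [sq_nonneg v]
  · refine ContinuousOn.congr (f := fun ξ => FF (Fh y) ξ * (N (v * y) ξ / y)) ?_ hFF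
    exact hc1.mul ((N_cont _).div_const _)
  · refine ContinuousOn.congr (f := fun ξ => deriv (FF (Fh y)) ξ * (N (v * y) ξ / y) +
      FF (Fh y) ξ * (N1 (v * y) ξ / y)) ?_ fun ξ h0 => (hFFd ξ h0).deriv
    exact (hc2.mul ((N_cont _).div_const _)).add (hc1.mul ((N1_cont _).div_const _))
  · obtain ⟨b1, b2, b3, b4, b5, b6⟩ := hξ ξ h0
    have hN := hNy ξ h0
    have hN1 := hN1y ξ h0
    have hyy : y ≤ Real.sqrt y := by
      rw [Real.le_sqrt hy.le hy.le]
      nlinarith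
    have hle : |v| ≤ |v| + 3 * v ^ 2 + 1 := by nlinarith [sq_nonneg v]
    refine ⟨?_, ?_, ?_, ?_, ?_⟩
    · rw [hFF ξ h0, norm_mul]
      calc ‖FF (Fh y) ξ‖ * ‖N (v * y) ξ / y‖ ≤ (C0 * y) * |v| := by gcongr
        _ = C0 * |v| * y := by ring
        _ ≤ C0 * (|v| + 3 * v ^ 2 + 1) * y := by gcongr
    · rw [hFF ξ h0, norm_mul]
      calc ‖FF (Fh y) ξ‖ * ‖N (v * y) ξ / y‖ ≤ (C0 / (y * ξ ^ 2)) * |v| := by gcongr
        _ = C0 * |v| / (y * ξ ^ 2) := by ring
        _ ≤ C0 * (|v| + 3 * v ^ 2 + 1) / (y * ξ ^ 2) := by gcongr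
    · rw [(hFFd ξ h0).deriv]
      calc ‖deriv (FF (Fh y)) ξ * (N (v * y) ξ / y) + FF (Fh y) ξ * (N1 (v * y) ξ / y)‖
          ≤ ‖deriv (FF (Fh y)) ξ‖ * ‖N (v * y) ξ / y‖ + ‖FF (Fh y) ξ‖ * ‖N1 (v * y) ξ / y‖ := by
            refine (norm_add_le _ _).trans ?_
            rw [norm_mul, norm_mul]
        _ ≤ C0 * (y * Real.sqrt y) * |v| + C0 * y * (3 * v ^ 2 * y) := by gcongr
        _ ≤ C0 * (y * Real.sqrt y) * |v| + C0 * y * (3 * v ^ 2 * Real.sqrt y) := by gcongr
        _ ≤ C0 * (|v| + 3 * v ^ 2 + 1) * (y * Real.sqrt y) := by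
            have : 0 ≤ C0 * (y * Real.sqrt y) := by positivity
            nlinarith
    · rw [(hFFd ξ h0).deriv]
      calc ‖deriv (FF (Fh y)) ξ * (N (v * y) ξ / y) + FF (Fh y) ξ * (N1 (v * y) ξ / y)‖
          ≤ ‖deriv (FF (Fh y)) ξ‖ * ‖N (v * y) ξ / y‖ + ‖FF (Fh y) ξ‖ * ‖N1 (v * y) ξ / y‖ := by
            refine (norm_add_le _ _).trans ?_
            rw [norm_mul, norm_mul]
        _ ≤ C0 / ξ ^ 2 * |v| + C0 / (y * ξ ^ 2) * (3 * v ^ 2 * y) := by gcongr
        _ = C0 * (|v| + 3 * v ^ 2) / ξ ^ 2 := by field_simp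
        _ ≤ C0 * (|v| + 3 * v ^ 2 + 1) / ξ ^ 2 :=
            div_le_div_of_nonneg_right
              (mul_le_mul_of_nonneg_left (by linarith) hC0.le) (by positivity)
    · rw [hFF ξ h0]
      have h1 : FF (Fh y) ξ * (N (v * y) ξ / y) - ((Real.pi * Real.exp (-(y * ξ)) : ℝ) : ℂ) *
          ((1 - cexp (-(((v * y * ξ : ℝ) : ℂ) * I))) / (I * ξ)) =
          (FF (Fh y) ξ - ((Real.pi * y * Real.exp (-(y * ξ)) : ℝ) : ℂ)) * (N (v * y) ξ / y) := by
        rw [show (1 - cexp (-(((v * y * ξ : ℝ) : ℂ) * I))) / (I * ξ) = N (v * y) ξ from rfl]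
        push_cast
        field_simp
      rw [h1, norm_mul]
      calc ‖FF (Fh y) ξ - ((Real.pi * y * Real.exp (-(y * ξ)) : ℝ) : ℂ)‖ * ‖N (v * y) ξ / y‖
          ≤ (C0 * y ^ 2 / (1 + ξ ^ 2)) * |v| := by gcongr
        _ = C0 * |v| * y ^ 2 / (1 + ξ ^ 2) := by ring
        _ ≤ C0 * (|v| + 3 * v ^ 2 + 1) * y ^ 2 / (1 + ξ ^ 2) := by gcongr

end Pool.Agent.H874.GP
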